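import Pool.Agent.Y248.FB.Stm
import Pool.Agent.Y248.BA.Sum
import Pool.Agent.H438R2.RZ.R7

set_option autoImplicit false

/-! # The mean as a sum of pieces (FB-HS) -/

namespace Pool.Agent.Y624.FB

open MeasureTheory Set Metric Complex Filter
open scoped ENNReal RealInnerProductSpace Topology FourierTransform
open Pool.Agent.H789R2.FR (E sg T)
open Pool.Agent.H438R2.RZ (Bump)
open Pool.Agent.H438R2.RZ.R7aux
open Pool.Agent.Y248.BA
open Pool.Agent.Y248.FB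

theorem mu_neg {n : ℕ} (ψ : ℝ → ℝ) (A R : ℝ) (ξ : E n) : mu ψ A R (-ξ) = mu ψ A R ξ := by
  unfold mu
  rw [norm_neg]

/-- the piece on the spectral side -/
theorem pc_eq {n : ℕ} {ψ : ℝ → ℝ} (hψ : Bump ψ) {A R : ℝ} (hA : 0 < A) (hR : 0 < R) (hR2 : R ≤ 2)
    (f : SchwartzMap (E n) ℂ) (x : E n) :
    Tp ψ A R (fun y => f y) x = ∫ ξ : E n, mu ψ A R ξ * 𝓕 (fun y => f y) ξ *
      cexp (((2 * Real.pi * ⟪x, ξ⟫ : ℝ) : ℂ) * I) := by
  rw [Tp_eq hψ hA hR hR2 f.integrable, four_eq, ← integral_neg_eq_self]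
  refine integral_congr_ae (Eventually.of_forall fun ξ => ?_)
  simp only [gh, mu_neg, neg_neg]
  have e : ((-2 * Real.pi * ⟪-ξ, x⟫ : ℝ) : ℂ) * I = ((2 * Real.pi * ⟪x, ξ⟫ : ℝ) : ℂ) * I := by
    rw [inner_neg_left, real_inner_comm x ξ]
    push_cast
    ring
  rw [e]
  ring

/-- the multipliers of the pieces add up to the one of the mean -/
theorem ml_sum {n : ℕ} (δ : ℝ) {R : ℝ} (hR : 0 < R) (ξ : E n) :
    HasSum (fun j : ℕ => (((2 : ℝ) ^ (-(δ * j)) : ℝ) : ℂ) * mu (psi δ) (2 ^ j) R ξ) (ml δ R ξ) := by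
  set w : ℝ := 1 - (R ^ 2)⁻¹ * ‖ξ‖ ^ 2 with hw
  have hmu : ∀ j : ℕ, (((2 : ℝ) ^ (-(δ * j)) : ℝ) : ℂ) * mu (psi δ) (2 ^ j) R ξ =
      (((2 : ℝ) ^ (-(δ * j)) * psi δ (2 ^ j * w) : ℝ) : ℂ) := by
    intro j
    unfold mu
    rw [← hw]
    push_cast
    rfl
  simp only [hmu]
  by_cases h : ‖ξ‖ < R
  · have hw0 : 0 < w := by
      rw [hw, sub_pos, inv_mul_lt_iff₀ (by positivity), mul_one]
      exact pow_lt_pow_left₀ h (norm_nonneg _) two_ne_zero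
    have hw1 : w ≤ 1 := by
      rw [hw]
      have : 0 ≤ (R ^ 2)⁻¹ * ‖ξ‖ ^ 2 := by positivity
      linarith
    have hml : ml δ R ξ = ((w ^ δ : ℝ) : ℂ) := by
      unfold ml
      rw [if_pos h, hw]
      congr 3
      rw [div_eq_inv_mul]
    rw [hml]
    refine Complex.hasSum_ofReal.2 ?_
    simp only [term δ w hw0]
    obtain ⟨J, hJ⟩ := pow_unbounded_of_one_lt (2 / w) (by norm_num : (1 : ℝ) < 2)
    have hbig : ∀ j, J ≤ j → 2 ≤ (2 : ℝ) ^ j * w := by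
      intro j hj
      have h1 : (2 : ℝ) ^ J ≤ 2 ^ j := pow_le_pow_right₀ (by norm_num) hj
      rw [div_lt_iff₀ hw0] at hJ
      nlinarith
    have hs : ∑ j ∈ Finset.range J, w ^ δ * bet (2 ^ j * w) = w ^ δ := by
      rw [← Finset.mul_sum, sum_bet, h_one (hbig J le_rfl), h_zero hw1, sub_zero, mul_one]
    have hz : ∀ j ∉ Finset.range J, w ^ δ * bet (2 ^ j * w) = 0 := by
      intro j hj
      have hj' : J ≤ j := by simpa using hj
      rw [bet_high (hbig j hj'), mul_zero]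
    have this : HasSum (fun j : ℕ => w ^ δ * bet (2 ^ j * w))
        (∑ j ∈ Finset.range J, w ^ δ * bet (2 ^ j * w)) := hasSum_sum_of_ne_finset_zero hz
    rwa [hs] at this
  · have hw0 : w ≤ 0 := by
      push Not at h
      rw [hw, sub_nonpos, ← div_eq_inv_mul, le_div_iff₀ (by positivity), one_mul]
      exact pow_le_pow_left₀ hR.le h 2
    have h0 : ∀ j : ℕ, (2 : ℝ) ^ (-(δ * j)) * psi δ (2 ^ j * w) = 0 := by
      intro j
      have : (2 : ℝ) ^ j * w ≤ 0 := mul_nonpos_of_nonneg_of_nonpos (by positivity) hw0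
      unfold psi
      rw [bet_low (by linarith), mul_zero, mul_zero]
    have hml : ml δ R ξ = 0 := by
      unfold ml
      rw [if_neg h]
    rw [hml]
    simp only [h0, Complex.ofReal_zero]
    exact hasSum_zero

/-- mean square of the multiplier -/
theorem mu_sq {n : ℕ} {ψ : ℝ → ℝ} (hψ : Bump ψ) {A R C : ℝ} (hA : 0 < A) (hR : 0 < R) (hR2 : R ≤ 2)
    (hC : 0 ≤ C / A) (h : ∫⁻ ξ : E n, ‖mu ψ A R ξ‖ₑ ^ (2 : ℝ) ≤ ENNReal.ofReal (C / A)) :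
    Integrable (fun ξ : E n => ‖mu ψ A R ξ‖ ^ 2) ∧ ∫ ξ : E n, ‖mu ψ A R ξ‖ ^ 2 ≤ C / A := by
  have h2 := mu_two (n := n) hψ hA hR hR2
  have hi : Integrable fun ξ : E n => ‖mu ψ A R ξ‖ ^ 2 := h2.norm.integrable_sq
  refine ⟨hi, ?_⟩
  have h3 : ∫⁻ ξ : E n, ‖mu ψ A R ξ‖ₑ ^ (2 : ℝ) = ENNReal.ofReal (∫ ξ : E n, ‖mu ψ A R ξ‖ ^ 2) := by
    rw [ofReal_integral_eq_lintegral_ofReal hi (Eventually.of_forall fun x => by positivity)]
    refine lintegral_congr fun x => ?_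
    rw [← ofReal_norm, ENNReal.ofReal_rpow_of_nonneg (norm_nonneg _) (by norm_num)]
    congr 1
    exact_mod_cast Real.rpow_natCast _ 2
  rw [h3] at h
  exact (ENNReal.ofReal_le_ofReal_iff hC).1 h

theorem t_hs (n : ℕ) (hn : 2 ≤ n) : S_HS n := by
  intro δ hδ
  refine ⟨psi δ, psi_bump δ, fun f R hR1 hR2 x => ?_⟩
  have hψ : Bump (psi δ) := psi_bump δ
  have hR0 : 0 < R := by linarith
  obtain ⟨C, hC, hL2⟩ := mu_L2 n hn hψ
  set g : E n → ℂ := 𝓕 (fun y => f y) with hg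
  have hgS : g = fun ξ => (𝓕 f : SchwartzMap (E n) ℂ) ξ := rfl
  have hg2 : MemLp g 2 := by
    rw [hgS]
    exact (𝓕 f : SchwartzMap (E n) ℂ).memLp 2
  have hgc : Continuous g := by
    rw [hgS]
    exact (𝓕 f : SchwartzMap (E n) ℂ).continuous
  have hgi : Integrable fun ξ => ‖g ξ‖ ^ 2 := hg2.norm.integrable_sq
  set K : ℝ := ∫ ξ, ‖g ξ‖ ^ 2 with hK
  have hK0 : 0 ≤ K := integral_nonneg fun ξ => by positivity
  set e : E n → ℂ := fun ξ => cexp (((2 * Real.pi * ⟪x, ξ⟫ : ℝ) : ℂ) * I) with he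
  have he1 : ∀ ξ, ‖e ξ‖ = 1 := fun ξ => Complex.norm_exp_ofReal_mul_I _
  have hec : Continuous e := by
    rw [he]
    fun_prop
  set F : ℕ → E n → ℂ := fun j ξ => (((2 : ℝ) ^ (-(δ * j)) : ℝ) : ℂ) *
    (mu (psi δ) (2 ^ j) R ξ * g ξ * e ξ) with hF
  have hA : ∀ j : ℕ, (1 : ℝ) ≤ 2 ^ j := fun j => one_le_pow₀ (by norm_num)
  have hFc : ∀ j, Continuous (F j) := fun j =>
    continuous_const.mul (((mu_cont hψ _ R).mul hgc).mul hec)
  have hFn : ∀ j ξ, ‖F j ξ‖ ≤ ‖mu (psi δ) (2 ^ j) R ξ‖ * ‖g ξ‖ := by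
    intro j ξ
    have h1 : (2 : ℝ) ^ (-(δ * j)) ≤ 1 := Real.rpow_le_one_of_one_le_of_nonpos (by norm_num)
      (by have : 0 ≤ δ * j := by positivity
          linarith)
    have h2 : 0 ≤ (2 : ℝ) ^ (-(δ * j)) := Real.rpow_nonneg (by norm_num) _
    rw [hF]
    simp only [norm_mul, he1, mul_one]
    rw [Complex.norm_real, Real.norm_of_nonneg h2]
    exact mul_le_of_le_one_left (by positivity) h1
  have hmul : ∀ j, ∀ ξ, ‖mu (psi δ) (2 ^ j) R ξ‖ * ‖g ξ‖ ≤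
      1 / 2 * (Real.sqrt (2 ^ j) * ‖mu (psi δ) (2 ^ j) R ξ‖ ^ 2 + (Real.sqrt (2 ^ j))⁻¹ * ‖g ξ‖ ^ 2) := by
    intro j ξ
    have hs : 0 < Real.sqrt ((2 : ℝ) ^ j) := by positivity
    set s := Real.sqrt ((2 : ℝ) ^ j) with hsd
    set u := ‖mu (psi δ) (2 ^ j) R ξ‖
    set v := ‖g ξ‖
    have h1 : s * u ^ 2 + s⁻¹ * v ^ 2 - 2 * (u * v) = s * (u - s⁻¹ * v) ^ 2 := by
      field_simp
      ring
    have h2 : 0 ≤ s * (u - s⁻¹ * v) ^ 2 := by positivity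
    linarith
  have hsq := fun j : ℕ => mu_sq (n := n) (C := C) hψ (A := 2 ^ j) (R := R) (by positivity) hR0 hR2
    (by positivity) (hL2 (2 ^ j) R (hA j) hR1 hR2)
  have hmaj : ∀ j : ℕ, Integrable fun ξ => 1 / 2 * (Real.sqrt (2 ^ j) *
      ‖mu (psi δ) (2 ^ j) R ξ‖ ^ 2 + (Real.sqrt (2 ^ j))⁻¹ * ‖g ξ‖ ^ 2) := fun j =>
    (((hsq j).1.const_mul _).add (hgi.const_mul _)).const_mul _
  have hFi : ∀ j, Integrable (F j) := fun j =>
    (hmaj j).mono' (hFc j).aestronglyMeasurable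
      (Eventually.of_forall fun ξ => (hFn j ξ).trans (hmul j ξ))
  have hFsum : ∀ j, ∫ ξ, ‖F j ξ‖ ≤ 1 / 2 * (C + K) * (2 : ℝ) ^ (-((1 / 2 : ℝ) * j)) := by
    intro j
    have hs : Real.sqrt ((2 : ℝ) ^ j) = (2 : ℝ) ^ ((1 / 2 : ℝ) * j) := by
      rw [Real.sqrt_eq_rpow, ← Real.rpow_natCast, ← Real.rpow_mul (by norm_num)]
      congr 1
      ring
    have hs0 : 0 < (2 : ℝ) ^ ((1 / 2 : ℝ) * j) := Real.rpow_pos_of_pos (by norm_num) _
    have hs2 : (2 : ℝ) ^ j = (2 : ℝ) ^ ((1 / 2 : ℝ) * j) * (2 : ℝ) ^ ((1 / 2 : ℝ) * j) := by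
      rw [← Real.rpow_natCast, ← Real.rpow_add (by norm_num)]
      congr 1
      ring
    calc ∫ ξ, ‖F j ξ‖ ≤ ∫ ξ, 1 / 2 * (Real.sqrt (2 ^ j) *
          ‖mu (psi δ) (2 ^ j) R ξ‖ ^ 2 + (Real.sqrt (2 ^ j))⁻¹ * ‖g ξ‖ ^ 2) :=
          integral_mono (hFi j).norm (hmaj j) fun ξ => (hFn j ξ).trans (hmul j ξ)
      _ = 1 / 2 * (Real.sqrt (2 ^ j) * (∫ ξ : E n, ‖mu (psi δ) (2 ^ j) R ξ‖ ^ 2) +
          (Real.sqrt (2 ^ j))⁻¹ * K) := by
          rw [integral_const_mul, integral_add ((hsq j).1.const_mul _) (hgi.const_mul _),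
            integral_const_mul, integral_const_mul]
      _ ≤ 1 / 2 * (Real.sqrt (2 ^ j) * (C / 2 ^ j) + (Real.sqrt (2 ^ j))⁻¹ * K) := by
          have := (hsq j).2
          gcongr
      _ = 1 / 2 * (C + K) * (2 : ℝ) ^ (-((1 / 2 : ℝ) * j)) := by
          rw [hs, hs2, Real.rpow_neg (by norm_num)]
          field_simp
  have hsm : Summable fun j => ∫ ξ, ‖F j ξ‖ :=
    Summable.of_nonneg_of_le (fun j => integral_nonneg fun ξ => norm_nonneg _) hFsum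
      ((geo_half).mul_left _)
  have key := hasSum_integral_of_summable_integral_norm hFi hsm
  have e1 : (fun j : ℕ => ∫ ξ, F j ξ) = fun j : ℕ => (((2 : ℝ) ^ (-(δ * j)) : ℝ) : ℂ) *
      Tp (psi δ) (2 ^ j) R (fun y => f y) x := by
    funext j
    rw [pc_eq hψ (by positivity) hR0 hR2 f x, ← integral_const_mul]
  have e2 : ∫ ξ, ∑' j, F j ξ = Sm δ R (fun y => f y) x := by
    unfold Sm
    refine integral_congr_ae (Eventually.of_forall fun ξ => ?_)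
    have h1 := ((ml_sum δ hR0 ξ).mul_right (g ξ * e ξ)).tsum_eq
    simp only at h1 ⊢
    rw [hF]
    simp only
    have h2 : (fun j : ℕ => (((2 : ℝ) ^ (-(δ * j)) : ℝ) : ℂ) * mu (psi δ) (2 ^ j) R ξ * (g ξ * e ξ)) =
        fun j : ℕ => (((2 : ℝ) ^ (-(δ * j)) : ℝ) : ℂ) * (mu (psi δ) (2 ^ j) R ξ * g ξ * e ξ) := by
      funext j
      ring
    rw [h2] at h1
    rw [h1]
    ring
  rw [e1, e2] at key
  exact key
where
  geo_half : Summable fun j : ℕ => (2 : ℝ) ^ (-((1 / 2 : ℝ) * j)) := by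
    have : (fun j : ℕ => (2 : ℝ) ^ (-((1 / 2 : ℝ) * j))) = fun j : ℕ => ((2 : ℝ) ^ (-(1 / 2 : ℝ))) ^ j := by
      funext j
      rw [← Real.rpow_natCast, ← Real.rpow_mul (by norm_num)]
      congr 1
      ring
    rw [this]
    exact summable_geometric_of_lt_one (Real.rpow_nonneg (by norm_num) _)
      (Real.rpow_lt_one_of_one_lt_of_neg (by norm_num) (by norm_num))

end Pool.Agent.Y624.FB
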