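import Pool.Agent.Y624.FB.HS

set_option autoImplicit false

/-! # Summation of the pieces (FB-SU) -/

namespace Pool.Agent.Y624.FB

open MeasureTheory Set Metric Complex Filter
open scoped ENNReal RealInnerProductSpace Topology FourierTransform
open Pool.Agent.H789R2.FR (E sg T)
open Pool.Agent.H438R2.RZ (Bump)
open Pool.Agent.Y248.BA
open Pool.Agent.Y248.FB

/-- measurability in the case of variable radii -/
theorem Tp_rad_meas {n : ℕ} {ψ : ℝ → ℝ} (hψ : Bump ψ) {A : ℝ} (hA : 0 < A) {R : E n → ℝ}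
    (hR : Radii R) (f : SchwartzMap (E n) ℂ) :
    Measurable fun x => Tp ψ A (R x) (fun y => f y) x := by
  have h1 : (fun x => Tp ψ A (R x) (fun y => f y) x) = fun x => ∫ ξ : E n,
      mu ψ A (R x) ξ * 𝓕 (fun y => f y) ξ * cexp (((2 * Real.pi * ⟪x, ξ⟫ : ℝ) : ℂ) * I) := by
    funext x
    exact pc_eq hψ hA (by linarith [(hR.2 x).1]) (hR.2 x).2 f x
  rw [h1]
  have hgc : Continuous (𝓕 (fun y => f y) : E n → ℂ) := (𝓕 f : SchwartzMap (E n) ℂ).continuous
  have hm : Measurable fun z : E n × E n => mu ψ A (R z.1) z.2 * 𝓕 (fun y => f y) z.2 *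
      cexp (((2 * Real.pi * ⟪z.1, z.2⟫ : ℝ) : ℂ) * I) := by
    have h2 : Measurable fun z : E n × E n => mu ψ A (R z.1) z.2 := by
      unfold mu
      have h3 : Measurable fun z : E n × E n => A * (1 - (R z.1 ^ 2)⁻¹ * ‖z.2‖ ^ 2) :=
        measurable_const.mul (measurable_const.sub
          (((hR.1.comp measurable_fst).pow_const 2).inv.mul (measurable_snd.norm.pow_const 2)))
      exact Complex.measurable_ofReal.comp (hψ.1.continuous.measurable.comp h3)
    have h4 : Continuous fun z : E n × E n => cexp (((2 * Real.pi * ⟪z.1, z.2⟫ : ℝ) : ℂ) * I) := by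
      fun_prop
    exact (h2.mul (hgc.measurable.comp measurable_snd)).mul h4.measurable
  exact (hm.stronglyMeasurable.integral_prod_right' (ν := (volume : Measure (E n)))).measurable

theorem geo_s (δ : ℝ) (hδ : 0 < δ) : Summable fun j : ℕ => (2 : ℝ) ^ (-(δ * j)) := by
  have : (fun j : ℕ => (2 : ℝ) ^ (-(δ * j))) = fun j : ℕ => ((2 : ℝ) ^ (-δ)) ^ j := by
    funext j
    rw [← Real.rpow_natCast, ← Real.rpow_mul (by norm_num)]; congr 1; ring
  rw [this]
  exact summable_geometric_of_lt_one (Real.rpow_nonneg (by norm_num) _)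
    (Real.rpow_lt_one_of_one_lt_of_neg (by norm_num) (by linarith))

theorem t_su (n : ℕ) (_hn : 2 ≤ n) (hHS : S_HS n) : S_SU n := by
  intro α p δ σ hp hδ hσ hPC
  obtain ⟨ψ, hψ, hsum⟩ := hHS δ hδ
  obtain ⟨C, hC, hb⟩ := hPC ψ hψ
  have hp0 : 0 < p := by linarith
  have hgeo := geo_s (δ - σ) (by linarith)
  set S : ℝ := ∑' j : ℕ, (2 : ℝ) ^ (-((δ - σ) * j)) with hS
  have hS0 : 0 < S := by
    have h1 : (2 : ℝ) ^ (-((δ - σ) * ((0 : ℕ) : ℝ))) ≤ S :=
      hgeo.le_tsum 0 fun j _ => Real.rpow_nonneg (by norm_num) _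
    have h2 : (2 : ℝ) ^ (-((δ - σ) * ((0 : ℕ) : ℝ))) = 1 := by simp
    linarith
  refine ⟨C * S ^ p, by positivity, fun μ hμ R hR f => ?_⟩
  have hA1 : ∀ j : ℕ, (1 : ℝ) ≤ 2 ^ j := fun j => one_le_pow₀ (by norm_num)
  have h2n : ∀ j : ℕ, 0 ≤ (2 : ℝ) ^ (-(δ * j)) := fun j => Real.rpow_nonneg (by norm_num) _
  have h0 : ENNReal.ofReal p ≠ 0 := by
    rw [Ne, ENNReal.ofReal_eq_zero]; linarith
  have hp1' : 1 ≤ ENNReal.ofReal p := by
    rw [← ENNReal.ofReal_one]; exact ENNReal.ofReal_le_ofReal hp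
  have hfm : Measurable fun y => f y := f.continuous.measurable
  have hfp : ∫⁻ x, ‖f x‖ₑ ^ p ≠ ∞ := by
    have h1 := lintegral_rpow_enorm_lt_top_of_eLpNorm_lt_top h0 ENNReal.ofReal_ne_top
      (f.memLp (ENNReal.ofReal p) (volume : Measure (E n))).2
    rw [ENNReal.toReal_ofReal hp0.le] at h1
    exact h1.ne
  set Q : ℕ → E n → ℂ := fun j x => Tp ψ (2 ^ j) (R x) (fun y => f y) x with hQ
  have hTm : ∀ j : ℕ, Measurable (Q j) := fun j => Tp_rad_meas hψ (by positivity) hR f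
  have hN : ∀ g : E n → ℂ, eLpNorm g (ENNReal.ofReal p) μ = (∫⁻ x, ‖g x‖ₑ ^ p ∂μ) ^ (1 / p) :=
    fun g => by
      rw [eLpNorm_eq_lintegral_rpow_enorm_toReal h0 ENNReal.ofReal_ne_top,
        ENNReal.toReal_ofReal hp0.le]
  set B : ℝ≥0∞ := ENNReal.ofReal (C ^ (1 / p)) * (∫⁻ x, ‖f x‖ₑ ^ p) ^ (1 / p) with hB
  have hab : ∀ j, eLpNorm (Q j) (ENNReal.ofReal p) μ ≤ ENNReal.ofReal ((2 : ℝ) ^ (σ * j)) * B := by
    intro j
    rw [hN]
    refine (ENNReal.rpow_le_rpow (hb μ hμ (2 ^ j) (hA1 j) R hR (fun y => f y) hfm hfp)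
      (by positivity)).trans (le_of_eq ?_)
    rw [ENNReal.mul_rpow_of_nonneg _ _ (by positivity),
      ENNReal.ofReal_rpow_of_nonneg (by positivity) (by positivity),
      Real.mul_rpow hC.le (by positivity), ← Real.rpow_mul (by positivity), ← Real.rpow_natCast 2 j,
      ← Real.rpow_mul (by norm_num), show (j : ℝ) * (p * σ * (1 / p)) = σ * j by field_simp,
      ENNReal.ofReal_mul (by positivity), hB]
    ring
  set P : ℕ → E n → ℂ := fun J x => ∑ j ∈ Finset.range J,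
    (((2 : ℝ) ^ (-(δ * j)) : ℝ) : ℂ) * Q j x with hP
  have hPm : ∀ J, AEStronglyMeasurable (P J) μ := by
    intro J
    have : Measurable (P J) := by
      rw [hP]
      exact Finset.measurable_sum _ fun j _ => measurable_const.mul (hTm j)
    exact this.aestronglyMeasurable
  have hPlim : ∀ x, Tendsto (fun J => P J x) atTop (𝓝 (Sm δ (R x) (fun y => f y) x)) := fun x =>
    (hsum f (R x) (hR.2 x).1 (hR.2 x).2 x).tendsto_sum_nat
  have hlim := Lp.eLpNorm_lim_le_liminf_eLpNorm (p := ENNReal.ofReal p) hPm _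
    (Filter.Eventually.of_forall hPlim)
  have hfin : eLpNorm (fun x => Sm δ (R x) (fun y => f y) x) (ENNReal.ofReal p) μ ≤
      B * ENNReal.ofReal S := by
    refine hlim.trans ?_
    refine liminf_le_of_le (by isBoundedDefault) ?_
    intro b hb'
    obtain ⟨J', hJ'⟩ := hb'.exists
    refine hJ'.trans ?_
    calc eLpNorm (P J') (ENNReal.ofReal p) μ
        ≤ ∑ j ∈ Finset.range J', eLpNorm (fun x => (((2 : ℝ) ^ (-(δ * j)) : ℝ) : ℂ) *
            Q j x) (ENNReal.ofReal p) μ := by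
          have h := eLpNorm_sum_le (μ := μ) (p := ENNReal.ofReal p)
            (f := fun (j : ℕ) (x : E n) => (((2 : ℝ) ^ (-(δ * j)) : ℝ) : ℂ) *
            Q j x) (s := Finset.range J')
            (fun j _ => (measurable_const.mul (hTm j)).aestronglyMeasurable) hp1'
          have e2 : (∑ j ∈ Finset.range J', fun (x : E n) => (((2 : ℝ) ^ (-(δ * j)) : ℝ) : ℂ) *
            Q j x) = P J' := by
            funext x; rw [Finset.sum_apply]
          rw [e2] at h
          exact h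
      _ ≤ ∑ j ∈ Finset.range J', B * ENNReal.ofReal ((2 : ℝ) ^ (-((δ - σ) * j))) := by
          refine Finset.sum_le_sum fun j _ => ?_
          have h := eLpNorm_const_smul (((2 : ℝ) ^ (-(δ * j)) : ℝ) : ℂ)
            (Q j) (ENNReal.ofReal p) μ
          have e3 : ‖(((2 : ℝ) ^ (-(δ * j)) : ℝ) : ℂ)‖ₑ = ENNReal.ofReal ((2 : ℝ) ^ (-(δ * j))) := by
            rw [← ofReal_norm, Complex.norm_real, Real.norm_of_nonneg (h2n j)]
          rw [e3] at h
          refine (le_of_eq h).trans ((mul_le_mul' le_rfl (hab j)).trans (le_of_eq ?_))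
          rw [← mul_assoc, ← ENNReal.ofReal_mul (h2n j), mul_comm B]
          congr 2
          rw [← Real.rpow_add (by norm_num)]; congr 1; ring
      _ = B * ∑ j ∈ Finset.range J', ENNReal.ofReal ((2 : ℝ) ^ (-((δ - σ) * j))) := by
          rw [Finset.mul_sum]
      _ ≤ B * ENNReal.ofReal S := by
          gcongr
          rw [hS, ENNReal.ofReal_tsum_of_nonneg (fun j => Real.rpow_nonneg (by norm_num) _) hgeo]
          exact ENNReal.sum_le_tsum _
  rw [hN] at hfin
  have h5 := ENNReal.rpow_le_rpow hfin hp0.le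
  rw [← ENNReal.rpow_mul, one_div, inv_mul_cancel₀ hp0.ne', ENNReal.rpow_one] at h5
  refine h5.trans (le_of_eq ?_)
  rw [hB, ENNReal.mul_rpow_of_nonneg _ _ hp0.le, ENNReal.mul_rpow_of_nonneg _ _ hp0.le,
    ← ENNReal.rpow_mul, one_div, inv_mul_cancel₀ hp0.ne', ENNReal.rpow_one,
    ENNReal.ofReal_rpow_of_nonneg (by positivity) hp0.le, ENNReal.ofReal_rpow_of_nonneg hS0.le hp0.le,
    ← Real.rpow_mul hC.le, inv_mul_cancel₀ hp0.ne', Real.rpow_one, ENNReal.ofReal_mul hC.le]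
  ring

end Pool.Agent.Y624.FB
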